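import Pool.Agent.Lib.MP_c23e5f_coR.R9AvgFinal

set_option autoImplicit false

/-!
# The increments of the mean width of a square lattice polygon, on average over `n`

The total variation of the logarithm of the mean width `W_n` over the block `[N, 2 N]` is at most
`C √(N log N)`: on average over a block, `W_(n+1) = W_n (1 + O(√(log n / n)))`.
-/

namespace Pool.Agent.Results.MP_c23e5f_co.AverageIncrement

open Pool.Agent.Lib.MP_c23e5f_coR

theorem result :
    ∃ C : ℝ, 0 < C ∧ ∀ N : ℕ, 2 ≤ N →
      ∑ n ∈ Finset.Ico N (2 * N),
          |Real.log (mean (n + 1) (fun k => (k : ℝ))) - Real.log (mean n (fun k => (k : ℝ)))| ≤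
        C * √(N * Real.log N) :=
  avg_final

end Pool.Agent.Results.MP_c23e5f_co.AverageIncrement
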