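import Pool.Agent.Lib.MP_c23e5f_coR.R7Final

set_option autoImplicit false

/-!
# Regularity in `n` of the law of the width of a square lattice polygon

For every nonnegative function `φ` of the width, bounded by `M`, the mean of `φ (width)` over the
self-avoiding polygons of perimeter `2 n` changes by a factor `1 + O(√(log n) n^(-1/4))` when `n` is
replaced by `n + 1`, up to the additive error `M exp (-√n)`.
-/

namespace Pool.Agent.Results.MP_c23e5f_co.WidthLaw

open Pool.Agent.Lib.MP_c23e5f_coR

theorem result :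
    ∃ C : ℝ, 0 < C ∧ ∀ n : ℕ, 2 ≤ n → ∀ (φ : ℕ → ℝ) (M : ℝ),
      (∀ k, k ≤ n + 1 → 0 ≤ φ k ∧ φ k ≤ M) →
      |mean (n + 1) φ - mean n φ| ≤
        C * √(Real.log n) / (n : ℝ) ^ ((1 : ℝ) / 4) * (mean n φ + M * Real.exp (-√n)) :=
  law_final

end Pool.Agent.Results.MP_c23e5f_co.WidthLaw
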